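import Pool.Agent.KS6_80.IM.B

/-!
# MP_440a65_co: the imbalance conjecture for labellings, and with edges of imbalance zero

The conjecture: if `imb(uv) = |deg u - deg v| > 0` for every edge of `G`, then the multiset `M_G`
of the imbalances is graphic. We prove more.

* `(1)` Labellings. Let `f : V → ℤ` be *any* labelling of the vertices, and let `d_f(v)` be the
  number of neighbours of `v` with a label different from `f v`. If `f v - f u < d_f(v)` for any
  two vertices `u, v` which are joined by a path of length `1` or `2` whose edges have ends with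
  different labels, then the multiset `{|f u - f v| : uv ∈ E(G)}` is graphic if and only if
  `∑ v, f v * deg v` is even (that is, iff its sum is even).
* `(2)` Degrees. Let `s(v)` be the number of neighbours of `v` which have the same degree as
  `v`. If `s(v) < deg u` for any two vertices `u, v` joined by a path of length `1` or `2` without
  edges of imbalance `0`, then `M_G` is graphic. (The conjecture is the case `s = 0`; the new case
  allows edges of imbalance `0`, for instance whenever every vertex has fewer than `δ` neighbours
  of its own degree, `δ` the least positive degree.)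
* `(3)` In `(1)` the hypothesis on the vertices at distance two cannot be dropped.

The multiset is graphic iff there is a simple graph on the set of the edges of `G` in which the
degree of the edge `e` is the imbalance of `e`.
-/

set_option autoImplicit false

namespace Pool.Agent.Results.MP_440a65_co.LocalLabellings

open Finset Pool.Agent.KS6_80.IM

/-- The multiset of the numbers `|f u - f v|`, over the edges `uv` of `G`, is the degree multiset
of a simple graph (with vertex set `E(G)`). -/
def Graphic {V : Type} (G : SimpleGraph V) (f : V → ℤ) : Prop :=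
  ∃ H : SimpleGraph G.edgeSet, ∀ (u v : V) (h : G.Adj u v),
    ((H.neighborSet ⟨s(u, v), h⟩).ncard : ℤ) = |f u - f v|

/-- The number of neighbours of `v` whose label is different from the label of `v`. -/
noncomputable def different {V : Type} (G : SimpleGraph V) (f : V → ℤ) (v : V) : ℕ :=
  {w | G.Adj v w ∧ f v ≠ f w}.ncard

/-- The degree. -/
noncomputable def deg {V : Type} (G : SimpleGraph V) (v : V) : ℕ := (G.neighborSet v).ncard

/-- The number of neighbours of `v` which have the same degree as `v`. -/
noncomputable def same {V : Type} (G : SimpleGraph V) (v : V) : ℕ :=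
  {w | G.Adj v w ∧ deg G v = deg G w}.ncard

/-- `u` and `v` are joined by an edge whose ends have different labels. -/
def One {V : Type} (G : SimpleGraph V) (f : V → ℤ) (u v : V) : Prop := G.Adj u v ∧ f u ≠ f v

/-- `u` and `v` are joined by a path (or a walk) with two edges whose ends have different
labels. -/
def Two {V : Type} (G : SimpleGraph V) (f : V → ℤ) (u v : V) : Prop :=
  ∃ x, One G f u x ∧ One G f x v

/-- The theorem for labellings. -/
theorem labelled' {V : Type} [Fintype V] (G : SimpleGraph V) (f : V → ℤ)
    (h : ∀ u v, One G f u v ∨ Two G f u v → f v - f u < different G f v) :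
    Graphic G f ↔ Even (∑ v, f v * (deg G v : ℤ)) :=
  labelled G f (fun u v h1 h2 => h u v (Or.inl ⟨h1, h2⟩))
    (fun x u v h1 h2 h3 h4 => h u v (Or.inr ⟨x, ⟨h1.symm, h2.symm⟩, ⟨h3, h4⟩⟩))

lemma even_sq_sum {V : Type} [Fintype V] (G : SimpleGraph V) :
    Even (∑ v, (deg G v : ℤ) * (deg G v : ℤ)) := by
  classical
  have hdeg : ∀ v, (deg G v : ℤ) = (G.degree v : ℤ) := by
    intro v
    unfold deg
    rw [← G.card_neighborFinset_eq_degree, ← Set.ncard_coe_finset, G.coe_neighborFinset]
  have h1 : Even (∑ v, (deg G v : ℤ)) := by
    simp only [hdeg]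
    have h2 := G.sum_degrees_eq_twice_card_edges
    have h3 : (∑ v, (G.degree v : ℤ)) = 2 * (G.edgeFinset.card : ℤ) := by exact_mod_cast h2
    rw [h3]
    exact even_two_mul _
  have h2 : Even (∑ v, ((deg G v : ℤ) * (deg G v : ℤ) - (deg G v : ℤ))) := by
    refine Finset.even_sum _ fun v _ => ?_
    have : (deg G v : ℤ) * (deg G v : ℤ) - (deg G v : ℤ) =
        ((deg G v : ℤ) - 1) * ((deg G v : ℤ) - 1 + 1) := by ring
    rw [this]
    exact Int.even_mul_succ_self _
  rw [Finset.sum_sub_distrib] at h2
  have h3 := h2.add h1
  rwa [sub_add_cancel] at h3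

/-- The theorem for degrees. -/
theorem degrees {V : Type} [Fintype V] (G : SimpleGraph V)
    (h : ∀ u v, One G (fun w => (deg G w : ℤ)) u v ∨ Two G (fun w => (deg G w : ℤ)) u v →
      same G v < deg G u) : Graphic G (fun v => (deg G v : ℤ)) := by
  classical
  rw [labelled' G _ ?_]
  · exact even_sq_sum G
  · intro u v huv
    have h1 := h u v huv
    have h2 : same G v + different G (fun w => (deg G w : ℤ)) v = deg G v := by
      have hset : {w | G.Adj v w ∧ deg G v = deg G w} ∪
          {w | G.Adj v w ∧ (fun w => (deg G w : ℤ)) v ≠ (fun w => (deg G w : ℤ)) w} =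
          G.neighborSet v := by
        ext w
        constructor
        · rintro (h3 | h3)
          · exact h3.1
          · exact h3.1
        · intro h3
          by_cases hw : deg G v = deg G w
          · exact Or.inl ⟨h3, hw⟩
          · refine Or.inr ⟨h3, fun h4 => hw ?_⟩
            have h5 : (deg G v : ℤ) = (deg G w : ℤ) := h4
            exact_mod_cast h5
      have hdis : Disjoint {w | G.Adj v w ∧ deg G v = deg G w}
          {w | G.Adj v w ∧ (fun w => (deg G w : ℤ)) v ≠ (fun w => (deg G w : ℤ)) w} := by
        rw [Set.disjoint_left]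
        rintro w ⟨-, h3⟩ ⟨-, h4⟩
        refine h4 ?_
        show (deg G v : ℤ) = (deg G w : ℤ)
        rw [h3]
      have h3 := Set.ncard_union_eq hdis
      rw [hset] at h3
      exact h3.symm
    omega

/-- The conjecture (Q1). -/
theorem conjecture {V : Type} [Fintype V] (G : SimpleGraph V)
    (h : ∀ u v, G.Adj u v → 0 < |(deg G u : ℤ) - (deg G v : ℤ)|) :
    Graphic G (fun v => (deg G v : ℤ)) := by
  have hne : ∀ u v, G.Adj u v → deg G u ≠ deg G v := by
    intro u v h1 h2
    have := h u v h1
    rw [h2] at this
    simp at this
  refine degrees G fun u v huv => ?_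
  have h0 : same G v = 0 := by
    unfold same
    have : {w | G.Adj v w ∧ deg G v = deg G w} = ∅ := by
      ext w
      constructor
      · rintro ⟨h1, h2⟩
        exact hne v w h1 h2
      · exact fun h3 => h3.elim
    rw [this, Set.ncard_empty]
  rw [h0]
  have hadj : ∃ w, G.Adj u w := by
    rcases huv with h1 | ⟨x, h1, -⟩
    · exact ⟨v, h1.1⟩
    · exact ⟨x, h1.1⟩
  obtain ⟨w, hw⟩ := hadj
  unfold deg
  exact (Set.ncard_pos).2 ⟨w, hw⟩

/-! ### Sharpness -/

/-- The star with the centre `0` and four leaves. -/
def star : SimpleGraph (Fin 5) where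
  Adj u v := (u = 0 ∧ v ≠ 0) ∨ (v = 0 ∧ u ≠ 0)
  symm := ⟨fun _ _ h => h.symm⟩
  loopless := ⟨fun u h => by rcases h with h | h <;> exact h.2 h.1⟩

instance : DecidableRel star.Adj := fun u v => by
  unfold star
  infer_instance

/-- The labels of the star. -/
def lab : Fin 5 → ℤ := ![3, 2, 0, 0, 0]

lemma sharp : (∀ u v, One star lab u v → lab v - lab u < different star lab v) ∧
    Even (∑ v, lab v * (deg star v : ℤ)) ∧ ¬ Graphic star lab := by
  classical
  refine ⟨?_, ?_, ?_⟩
  · have hd : ∀ v, different star lab v =
        (univ.filter fun w => star.Adj v w ∧ lab v ≠ lab w).card := by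
      intro v
      unfold different
      rw [← Set.ncard_coe_finset]
      congr 1
      ext w
      simp
    simp only [hd]
    unfold One
    decide
  · have hd : ∀ v, deg star v = (univ.filter fun w => star.Adj v w).card := by
      intro v
      unfold deg
      rw [← Set.ncard_coe_finset]
      congr 1
      ext w
      simp
    simp only [hd]
    decide
  · rintro ⟨H, hH⟩
    have a1 : star.Adj 0 1 := by decide
    have a2 : star.Adj 0 2 := by decide
    have a3 : star.Adj 0 3 := by decide
    have a4 : star.Adj 0 4 := by decide
    have hall : ∀ e : star.edgeSet, e = ⟨s(0, 1), a1⟩ ∨ e = ⟨s(0, 2), a2⟩ ∨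
        e = ⟨s(0, 3), a3⟩ ∨ e = ⟨s(0, 4), a4⟩ := by
      rintro ⟨e, he⟩
      simp only [Subtype.mk.injEq]
      revert he
      induction e using Sym2.ind with
      | _ u v =>
        rw [SimpleGraph.mem_edgeSet]
        revert u v
        decide
    set e1 : star.edgeSet := ⟨s(0, 1), a1⟩ with he1
    set e2 : star.edgeSet := ⟨s(0, 2), a2⟩ with he2
    set e3 : star.edgeSet := ⟨s(0, 3), a3⟩ with he3
    set e4 : star.edgeSet := ⟨s(0, 4), a4⟩ with he4
    have hset : ∀ (x y z : star.edgeSet), (H.neighborSet x) ⊆ {y, z, e1} →
        (H.neighborSet x).ncard = 3 → H.Adj x e1 := by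
      intro x y z hsub hc
      by_contra hne
      have h1 : H.neighborSet x ⊆ {y, z} := by
        intro w hw
        rcases hsub hw with h | h | h
        · exact Or.inl h
        · exact Or.inr h
        · rw [Set.mem_singleton_iff] at h
          rw [h] at hw
          exact absurd hw hne
      have h2 := Set.ncard_le_ncard h1
      have h3 : ({y, z} : Set star.edgeSet).ncard ≤ 2 := Set.ncard_insert_le _ _ |>.trans (by
        rw [Set.ncard_singleton])
      omega
    have c2 : (H.neighborSet e2).ncard = 3 := by
      have := hH 0 2 a2
      have h0 : |lab 0 - lab 2| = 3 := by decide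
      rw [h0] at this
      exact_mod_cast this
    have c3 : (H.neighborSet e3).ncard = 3 := by
      have := hH 0 3 a3
      have h0 : |lab 0 - lab 3| = 3 := by decide
      rw [h0] at this
      exact_mod_cast this
    have c4 : (H.neighborSet e4).ncard = 3 := by
      have := hH 0 4 a4
      have h0 : |lab 0 - lab 4| = 3 := by decide
      rw [h0] at this
      exact_mod_cast this
    have c1 : (H.neighborSet e1).ncard = 1 := by
      have := hH 0 1 a1
      have h0 : |lab 0 - lab 1| = 1 := by decide
      rw [h0] at this
      exact_mod_cast this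
    have g2 : H.Adj e2 e1 := by
      refine hset e2 e3 e4 (fun w hw => ?_) c2
      rcases hall w with h | h | h | h
      · exact Or.inr (Or.inr h)
      · rw [h] at hw; exact absurd hw (H.irrefl)
      · exact Or.inl h
      · exact Or.inr (Or.inl h)
    have g3 : H.Adj e3 e1 := by
      refine hset e3 e2 e4 (fun w hw => ?_) c3
      rcases hall w with h | h | h | h
      · exact Or.inr (Or.inr h)
      · exact Or.inl h
      · rw [h] at hw; exact absurd hw (H.irrefl)
      · exact Or.inr (Or.inl h)
    have h1 := (Set.ncard_le_one_iff).1 c1.le g2.symm g3.symm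
    rw [he2, he3, Subtype.mk.injEq] at h1
    exact absurd h1 (by decide)

/-- **The imbalance theorem.** `(0)` The conjecture (Q1). `(1)` For labellings: under the local
hypothesis, the multiset of the `|f u - f v|` is graphic iff `∑ v, f v * deg v` is even. `(2)` For
degrees, with edges of imbalance zero allowed. `(3)` In `(1)` it is not enough to assume the
inequality for adjacent vertices. -/
theorem result :
    (∀ (V : Type) [Fintype V] (G : SimpleGraph V),
      (∀ u v, G.Adj u v → 0 < |(deg G u : ℤ) - (deg G v : ℤ)|) →
      Graphic G (fun v => (deg G v : ℤ))) ∧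
    (∀ (V : Type) [Fintype V] (G : SimpleGraph V) (f : V → ℤ),
      (∀ u v, One G f u v ∨ Two G f u v → f v - f u < different G f v) →
      (Graphic G f ↔ Even (∑ v, f v * (deg G v : ℤ)))) ∧
    (∀ (V : Type) [Fintype V] (G : SimpleGraph V),
      (∀ u v, One G (fun w => (deg G w : ℤ)) u v ∨ Two G (fun w => (deg G w : ℤ)) u v →
        same G v < deg G u) →
      Graphic G (fun v => (deg G v : ℤ))) ∧
    (∃ (G : SimpleGraph (Fin 5)) (f : Fin 5 → ℤ),
      (∀ u v, One G f u v → f v - f u < different G f v) ∧
      Even (∑ v, f v * (deg G v : ℤ)) ∧ ¬ Graphic G f) :=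
  ⟨fun _ _ G h => conjecture G h, fun _ _ G f h => labelled' G f h, fun _ _ G h => degrees G h, star, lab, sharp⟩

end Pool.Agent.Results.MP_440a65_co.LocalLabellings
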